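import Pool.Agent.Y329.CG.Stm

/-!
Job CG-GEN: generic parameters by the Baire category theorem.
-/

set_option autoImplicit false

open Set Filter Topology

namespace Pool.Agent.Y986.CG

open Pool.Agent.Y329.CG

/-- the compact sets of configurations -/
def K (k : ℕ) (δ : ℝ) (S T : Finset (Fin k)) : Set (Fin k → ℝ) :=
  {X | (∀ i j, i ≠ j → δ ≤ |X i - X j|) ∧ (∀ i, δ ≤ X i ∧ X i ≤ 3 - δ) ∧
    (∀ i ∈ S, X i ≤ 2 - δ) ∧ (∀ i ∈ T, 1 + δ ≤ X i)}

theorem K_closed (k : ℕ) (δ : ℝ) (S T : Finset (Fin k)) : IsClosed (K k δ S T) := by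
  have e : K k δ S T = (⋂ (i : Fin k) (j : Fin k) (_ : i ≠ j), {X : Fin k → ℝ | δ ≤ |X i - X j|}) ∩
      ((⋂ i : Fin k, {X : Fin k → ℝ | δ ≤ X i} ∩ {X : Fin k → ℝ | X i ≤ 3 - δ}) ∩
      ((⋂ (i : Fin k) (_ : i ∈ S), {X : Fin k → ℝ | X i ≤ 2 - δ}) ∩
       (⋂ (i : Fin k) (_ : i ∈ T), {X : Fin k → ℝ | 1 + δ ≤ X i}))) := by
    ext X
    simp only [K, mem_setOf_eq, mem_inter_iff, mem_iInter]
  rw [e]
  refine IsClosed.inter ?_ (IsClosed.inter ?_ (IsClosed.inter ?_ ?_))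
  · refine isClosed_iInter fun i => isClosed_iInter fun j => isClosed_iInter fun _ => ?_
    exact isClosed_le continuous_const (by fun_prop)
  · refine isClosed_iInter fun i => IsClosed.inter ?_ ?_
    · exact isClosed_le continuous_const (by fun_prop)
    · exact isClosed_le (by fun_prop) continuous_const
  · refine isClosed_iInter fun i => isClosed_iInter fun _ => ?_
    exact isClosed_le (by fun_prop) continuous_const
  · refine isClosed_iInter fun i => isClosed_iInter fun _ => ?_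
    exact isClosed_le continuous_const (by fun_prop)

theorem K_compact (k : ℕ) (δ : ℝ) (S T : Finset (Fin k)) : IsCompact (K k δ S T) := by
  refine IsCompact.of_isClosed_subset (isCompact_Icc (a := fun _ : Fin k => δ)
    (b := fun _ : Fin k => 3 - δ)) (K_closed k δ S T) ?_
  intro X hX
  exact ⟨fun i => (hX.2.1 i).1, fun i => (hX.2.1 i).2⟩

/-- the value of a marked point -/
def vv (b : Bool) : ℝ := if b then 1 else 2

/-- the bad set of parameters -/
def Bad (ε : ℝ) (k : ℕ) (δ : ℝ) (C S T : Finset (Fin k)) (β : Fin k → Bool)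
    (σ τ : Fin k → Fin k) : Set (Om × Om) :=
  {z | ∃ X ∈ K k δ S T, (∀ i ∈ C, X i = vv (β i)) ∧ (∀ i ∈ S, fam ε 0 (sq z.1) (X i) = X (σ i)) ∧
    (∀ i ∈ T, fam ε 1 (sq z.2) (X i) = X (τ i))}

theorem bump_cont (i : Fin 2) : Continuous (bump i) := by
  have h : Continuous expNegInvGlue := (expNegInvGlue.contDiff (n := 0)).continuous
  exact (h.comp (by fun_prop : Continuous fun x : ℝ => x - lo i)).mul
    (h.comp (by fun_prop : Continuous fun x : ℝ => hi i - x))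

theorem bump_contDiff (i : Fin 2) : ContDiff ℝ 1 (bump i) := by
  have h : ContDiff ℝ 1 expNegInvGlue := expNegInvGlue.contDiff
  exact (h.comp (contDiff_id.sub contDiff_const : ContDiff ℝ 1 fun x : ℝ => x - lo i)).mul
    (h.comp (contDiff_const.sub contDiff_id : ContDiff ℝ 1 fun x : ℝ => hi i - x))

theorem bump_pos {i : Fin 2} {x : ℝ} (h : x ∈ Ioo (lo i) (hi i)) : 0 < bump i x :=
  mul_pos (expNegInvGlue.pos_of_pos (sub_pos.2 h.1)) (expNegInvGlue.pos_of_pos (sub_pos.2 h.2))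

theorem fam_cont (h2 : S_PS2) (ε : ℝ) (i : Fin 2) :
    Continuous (fun z : Om × ℝ => fam ε i (sq z.1) z.2) := by
  have h2' : Continuous (fun z : Om × ℝ => PS (sq z.1) z.2) := h2
  unfold fam
  have hb := (bump_cont i).comp (continuous_snd : Continuous (fun z : Om × ℝ => z.2))
  exact continuous_snd.add (continuous_const.mul (hb.mul (continuous_const.add h2')))

theorem Bad_closed (h2 : S_PS2) (ε : ℝ) (k : ℕ) (δ : ℝ) (C S T : Finset (Fin k)) (β : Fin k → Bool)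
    (σ τ : Fin k → Fin k) : IsClosed (Bad ε k δ C S T β σ τ) := by
  set E : Set ((Om × Om) × (Fin k → ℝ)) :=
    (univ ×ˢ K k δ S T) ∩ ((⋂ (i : Fin k) (_ : i ∈ C), {w | w.2 i = vv (β i)}) ∩
    ((⋂ (i : Fin k) (_ : i ∈ S), {w | fam ε 0 (sq w.1.1) (w.2 i) = w.2 (σ i)}) ∩
     (⋂ (i : Fin k) (_ : i ∈ T), {w | fam ε 1 (sq w.1.2) (w.2 i) = w.2 (τ i)}))) with hE
  have hc : IsCompact E := by
    refine IsCompact.inter_right (isCompact_univ.prod (K_compact k δ S T)) ?_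
    refine IsClosed.inter ?_ (IsClosed.inter ?_ ?_)
    · refine isClosed_iInter fun i => isClosed_iInter fun _ => ?_
      exact isClosed_eq (by fun_prop) continuous_const
    · refine isClosed_iInter fun i => isClosed_iInter fun _ => ?_
      refine isClosed_eq ?_ (by fun_prop)
      exact (fam_cont h2 ε 0).comp
        (by fun_prop : Continuous fun w : (Om × Om) × (Fin k → ℝ) => (w.1.1, w.2 i))
    · refine isClosed_iInter fun i => isClosed_iInter fun _ => ?_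
      refine isClosed_eq ?_ (by fun_prop)
      exact (fam_cont h2 ε 1).comp
        (by fun_prop : Continuous fun w : (Om × Om) × (Fin k → ℝ) => (w.1.2, w.2 i))
  have e : Bad ε k δ C S T β σ τ = Prod.fst '' E := by
    ext z
    simp only [Bad, hE, mem_setOf_eq, mem_image, mem_inter_iff, mem_prod, mem_univ, true_and,
      mem_iInter, Prod.exists, exists_and_right, exists_eq_right]
  rw [e]
  exact (hc.image continuous_fst).isClosed

/-- the perturbation of a parameter in the first `k` coordinates -/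
noncomputable def shf (k : ℕ) (a : Om) (s : ℝ) (t : Fin k → ℝ) : Om := fun n =>
  Set.projIcc (-1) 1 (by norm_num) (s * (a n : ℝ) + if h : n < k then t ⟨n, h⟩ else 0)

theorem shf_cont (k : ℕ) (a : Om) : Continuous (fun z : ℝ × (Fin k → ℝ) => shf k a z.1 z.2) := by
  refine continuous_pi fun n => ?_
  refine continuous_projIcc.comp ?_
  by_cases h : n < k
  · simp only [h, dif_pos]
    fun_prop
  · simp only [h, dif_neg, not_false_eq_true]
    fun_prop

theorem shf_one (k : ℕ) (a : Om) : shf k a 1 0 = a := by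
  funext n
  simp only [shf, one_mul, Pi.zero_apply, dite_eq_ite, ite_self, add_zero]
  exact Set.projIcc_val _ _

theorem shf_val (k : ℕ) (a : Om) (s : ℝ) (t : Fin k → ℝ) (n : ℕ)
    (h : |s * (a n : ℝ) + if h : n < k then t ⟨n, h⟩ else 0| ≤ 1) :
    sq (shf k a s t) n = s * (a n : ℝ) + if h : n < k then t ⟨n, h⟩ else 0 := by
  have h' := abs_le.1 h
  have : Set.projIcc (-1:ℝ) 1 (by norm_num) (s * (a n : ℝ) + if h : n < k then t ⟨n, h⟩ else 0) =
      ⟨_, ⟨h'.1, h'.2⟩⟩ := Set.projIcc_of_mem _ _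
  show ((Set.projIcc (-1:ℝ) 1 (by norm_num) (s * (a n : ℝ) + if h : n < k then t ⟨n, h⟩ else 0) :
    Icc (-1:ℝ) 1) : ℝ) = _
  rw [this]

theorem sq_le (a : Om) (n : ℕ) : |(a n : ℝ)| ≤ 1 := abs_le.2 ⟨(a n).2.1, (a n).2.2⟩

theorem sq_le' (a : Om) (n : ℕ) : |sq a n| ≤ 1 := sq_le a n

/-- the right sides -/
noncomputable def gg (ε : ℝ) (c : Fin 2) (a : ℕ → ℝ) {k : ℕ} (σ : Fin k → Fin k) (i : Fin k)
    (X : Fin k → ℝ) : ℝ := (X (σ i) - X i) / (ε * bump c (X i)) - 40 - PS a (X i)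

theorem gg_contDiffOn (h1 : S_PS1) {ε : ℝ} (hε : 0 < ε) (c : Fin 2) (a : ℕ → ℝ)
    (ha : ∀ n, |a n| ≤ 1) {k : ℕ} (σ : Fin k → Fin k) (i : Fin k) (O : Set (Fin k → ℝ))
    (hO : ∀ X ∈ O, X i ∈ Ioo (lo c) (hi c)) : ContDiffOn ℝ 1 (gg ε c a σ i) O := by
  have e1 : ∀ j : Fin k, ContDiff ℝ 1 (fun X : Fin k → ℝ => X j) := fun j => contDiff_apply ℝ ℝ j
  have hPS : ContDiff ℝ 1 (PS a) := by
    rw [contDiff_iff_contDiffAt]
    intro x
    exact ((h1 a ha).1 x).contDiffAt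
  unfold gg
  refine ContDiffOn.sub (ContDiffOn.sub (ContDiffOn.div ?_ ?_ ?_) contDiffOn_const) ?_
  · exact ((e1 _).sub (e1 _)).contDiffOn
  · exact (contDiff_const.mul ((bump_contDiff c).comp (e1 i))).contDiffOn
  · intro X hX
    exact (mul_pos hε (bump_pos (hO X hX))).ne'
  · exact (hPS.comp (e1 i)).contDiffOn

/-- the equation in solved form -/
theorem solve (h3 : S_PS3) {ε : ℝ} (hε : 0 < ε) (c : Fin 2) (a b : ℕ → ℝ)
    (ha : ∀ n, |a n| ≤ 1) {k : ℕ} (t : Fin k → ℝ) (hb : ∀ j : Fin k, b j = a j + t j)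
    (hb' : ∀ n, k ≤ n → b n = a n) (σ : Fin k → Fin k) (i : Fin k) (X : Fin k → ℝ)
    (hX : X i ∈ Ioo (lo c) (hi c)) (he : fam ε c b (X i) = X (σ i)) :
    ∑ j : Fin k, t j * ((((j : ℕ).factorial : ℝ))⁻¹ * X i ^ (j : ℕ)) = gg ε c a σ i X := by
  have h := h3 a b k t ha hb hb' (X i)
  have hp := mul_pos hε (bump_pos hX)
  unfold fam at he
  rw [h] at he
  unfold gg
  rw [← he, show ∀ x y : ℝ, x + y - x = y from fun x y => by ring, ← mul_assoc ε,
    mul_div_cancel_left₀ _ hp.ne']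
  ring

theorem Bad_interior (hFD : S_FD) (h1 : S_PS1) (h3 : S_PS3) {ε : ℝ} (hε : 0 < ε) (k : ℕ)
    {δ : ℝ} (hδ : 0 < δ) (C S T : Finset (Fin k)) (hk : k < C.card + S.card + T.card)
    (β : Fin k → Bool) (σ τ : Fin k → Fin k) : interior (Bad ε k δ C S T β σ τ) = ∅ := by
  by_contra hne
  obtain ⟨⟨a0, b0⟩, hab⟩ := nonempty_iff_ne_empty.2 hne
  -- the map
  set Φ : ℝ × ((Fin k → ℝ) × (Fin k → ℝ)) → Om × Om :=
    fun w => (shf k a0 w.1 w.2.1, shf k b0 w.1 w.2.2) with hΦ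
  have hΦc : Continuous Φ := by
    refine Continuous.prodMk ?_ ?_
    · exact (shf_cont k a0).comp (by fun_prop :
        Continuous fun w : ℝ × ((Fin k → ℝ) × (Fin k → ℝ)) => (w.1, w.2.1))
    · exact (shf_cont k b0).comp (by fun_prop :
        Continuous fun w : ℝ × ((Fin k → ℝ) × (Fin k → ℝ)) => (w.1, w.2.2))
  have hV : IsOpen (Φ ⁻¹' interior (Bad ε k δ C S T β σ τ)) := isOpen_interior.preimage hΦc
  have h10 : ((1 : ℝ), ((0 : Fin k → ℝ), (0 : Fin k → ℝ))) ∈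
      Φ ⁻¹' interior (Bad ε k δ C S T β σ τ) := by
    rw [mem_preimage, hΦ]
    simp only [shf_one]
    exact hab
  -- a value s < 1
  obtain ⟨s, hs0, hs1, hs⟩ : ∃ s : ℝ, 0 < s ∧ s < 1 ∧
      (s, ((0 : Fin k → ℝ), (0 : Fin k → ℝ))) ∈ Φ ⁻¹' interior (Bad ε k δ C S T β σ τ) := by
    have hc : Continuous (fun s : ℝ => (s, ((0 : Fin k → ℝ), (0 : Fin k → ℝ)))) := by fun_prop
    have hn : (fun s : ℝ => (s, ((0 : Fin k → ℝ), (0 : Fin k → ℝ)))) ⁻¹'
        (Φ ⁻¹' interior (Bad ε k δ C S T β σ τ)) ∈ 𝓝 (1:ℝ) := (hV.preimage hc).mem_nhds h10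
    have hn2 : ∀ᶠ s : ℝ in 𝓝[<] (1:ℝ), (s, ((0 : Fin k → ℝ), (0 : Fin k → ℝ))) ∈
        Φ ⁻¹' interior (Bad ε k δ C S T β σ τ) := mem_nhdsWithin_of_mem_nhds hn
    have hn3 : ∀ᶠ s : ℝ in 𝓝[<] (1:ℝ), 0 < s :=
      mem_nhdsWithin_of_mem_nhds (lt_mem_nhds (by norm_num))
    have hn4 : ∀ᶠ s : ℝ in 𝓝[<] (1:ℝ), s < 1 := self_mem_nhdsWithin
    obtain ⟨s, hs⟩ := (hn2.and (hn3.and hn4)).exists
    exact ⟨s, hs.2.1, hs.2.2, hs.1⟩
  -- the neighbourhood of zero
  set N : Set ((Fin k → ℝ) × (Fin k → ℝ)) :=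
    {t | (s, t) ∈ Φ ⁻¹' interior (Bad ε k δ C S T β σ τ)} ∩
      ({t | ∀ j, |t.1 j| < 1 - s} ∩ {t | ∀ j, |t.2 j| < 1 - s}) with hN
  have hNo : IsOpen N := by
    refine IsOpen.inter ?_ (IsOpen.inter ?_ ?_)
    · exact hV.preimage (by fun_prop : Continuous fun t : (Fin k → ℝ) × (Fin k → ℝ) => (s, t))
    · rw [ofPred_forall]
      exact isOpen_iInter_of_finite fun j => isOpen_lt (by fun_prop) continuous_const
    · rw [ofPred_forall]
      exact isOpen_iInter_of_finite fun j => isOpen_lt (by fun_prop) continuous_const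
  have hN0 : ((0 : Fin k → ℝ), (0 : Fin k → ℝ)) ∈ N := by
    refine ⟨hs, ?_, ?_⟩
    · intro j; simp; exact hs1
    · intro j; simp; exact hs1
  -- the open set of configurations
  set O : Set (Fin k → ℝ) := {X | Function.Injective X ∧ (∀ i ∈ S, X i ∈ Ioo (0:ℝ) 2) ∧
    (∀ i ∈ T, X i ∈ Ioo (1:ℝ) 3)} with hO
  have hOo : IsOpen O := by
    have e : O = (⋂ (i : Fin k) (j : Fin k) (_ : i ≠ j), {X : Fin k → ℝ | X i ≠ X j}) ∩
      ((⋂ (i : Fin k) (_ : i ∈ S), {X : Fin k → ℝ | X i ∈ Ioo (0:ℝ) 2}) ∩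
       (⋂ (i : Fin k) (_ : i ∈ T), {X : Fin k → ℝ | X i ∈ Ioo (1:ℝ) 3})) := by
      ext X
      simp only [hO, mem_setOf_eq, mem_inter_iff, mem_iInter]
      refine and_congr_left fun _ => ?_
      constructor
      · intro h i j hij h'
        exact hij (h h')
      · intro h i j hij
        by_contra h'
        exact h i j h' hij
    rw [e]
    refine IsOpen.inter ?_ (IsOpen.inter ?_ ?_)
    · refine isOpen_iInter_of_finite fun i => isOpen_iInter_of_finite fun j =>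
        isOpen_iInter_of_finite fun _ => ?_
      exact isOpen_ne_fun (by fun_prop) (by fun_prop)
    · refine isOpen_iInter_of_finite fun i => isOpen_iInter_of_finite fun _ => ?_
      exact isOpen_Ioo.preimage (by fun_prop : Continuous fun X : Fin k → ℝ => X i)
    · refine isOpen_iInter_of_finite fun i => isOpen_iInter_of_finite fun _ => ?_
      exact isOpen_Ioo.preimage (by fun_prop : Continuous fun X : Fin k → ℝ => X i)
  have l0 : lo 0 = 0 := by simp [lo]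
  have r0 : hi 0 = 2 := by simp [hi]
  have l1 : lo 1 = 1 := by simp [lo]
  have r1 : hi 1 = 3 := by simp [hi]; norm_num
  -- the two base sequences
  set a1 : ℕ → ℝ := fun n => s * (a0 n : ℝ) with ha1
  set b1 : ℕ → ℝ := fun n => s * (b0 n : ℝ) with hb1
  have hle : ∀ (c : Om) (n : ℕ), |s * (c n : ℝ)| ≤ s := by
    intro c n
    rw [abs_mul, abs_of_pos hs0]
    have := sq_le c n
    nlinarith
  have hD := hFD k (fun j => ((j.factorial : ℝ))⁻¹) (fun j => by positivity) C S T hk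
    (fun i => vv (β i)) O hOo (fun X hX => hX.1) (gg ε 0 a1 σ) (gg ε 1 b1 τ)
    (fun i hi => gg_contDiffOn h1 hε 0 a1 (fun n => (hle a0 n).trans hs1.le) σ i O
      (fun X hX => by rw [l0, r0]; exact hX.2.1 i hi))
    (fun i hi => gg_contDiffOn h1 hε 1 b1 (fun n => (hle b0 n).trans hs1.le) τ i O
      (fun X hX => by rw [l1, r1]; exact hX.2.2 i hi))
  obtain ⟨t, ht, htN⟩ := hD.inter_open_nonempty N hNo ⟨_, hN0⟩
  apply htN
  -- the parameters of t
  have hbd : ∀ (c : Om) (u : Fin k → ℝ), (∀ j, |u j| < 1 - s) → ∀ n,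
      |s * (c n : ℝ) + if h : n < k then u ⟨n, h⟩ else 0| ≤ 1 := by
    intro c u hu n
    have h2 : |if h : n < k then u ⟨n, h⟩ else 0| ≤ 1 - s := by
      split_ifs with h
      · exact (hu _).le
      · simp; exact hs1.le
    calc _ ≤ |s * (c n : ℝ)| + |if h : n < k then u ⟨n, h⟩ else 0| := abs_add_le _ _
      _ ≤ s + (1 - s) := add_le_add (hle c n) h2
      _ = 1 := by ring
  have htB : Φ (s, t) ∈ Bad ε k δ C S T β σ τ := interior_subset ht.1
  obtain ⟨X, hXK, hXC, hXS, hXT⟩ := htB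
  have hinj : Function.Injective X := by
    intro i j hij
    by_contra h
    have := hXK.1 i j h
    rw [hij, sub_self, abs_zero] at this
    linarith
  have hXS' : ∀ i ∈ S, X i ∈ Ioo (0:ℝ) 2 := fun i hi =>
    ⟨lt_of_lt_of_le hδ (hXK.2.1 i).1, lt_of_le_of_lt (hXK.2.2.1 i hi) (by linarith)⟩
  have hXT' : ∀ i ∈ T, X i ∈ Ioo (1:ℝ) 3 := fun i hi =>
    ⟨lt_of_lt_of_le (by linarith) (hXK.2.2.2 i hi), lt_of_le_of_lt (hXK.2.1 i).2 (by linarith)⟩
  refine ⟨X, ⟨hinj, hXS', hXT'⟩, hXC, ?_, ?_⟩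
  · intro i hi
    refine solve h3 hε 0 a1 (sq (shf k a0 s t.1)) (fun n => (hle a0 n).trans hs1.le) t.1 ?_ ?_ σ i X
      (by rw [l0, r0]; exact hXS' i hi) (hXS i hi)
    · intro j
      rw [shf_val k a0 s t.1 j (hbd a0 t.1 ht.2.1 j)]
      simp [ha1]
    · intro n hn
      rw [shf_val k a0 s t.1 n (hbd a0 t.1 ht.2.1 n), dif_neg (not_lt.2 hn), add_zero]
  · intro i hi
    refine solve h3 hε 1 b1 (sq (shf k b0 s t.2)) (fun n => (hle b0 n).trans hs1.le) t.2 ?_ ?_ τ i X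
      (by rw [l1, r1]; exact hXT' i hi) (hXT i hi)
    · intro j
      rw [shf_val k b0 s t.2 j (hbd b0 t.2 ht.2.2 j)]
      simp [hb1]
    · intro n hn
      rw [shf_val k b0 s t.2 n (hbd b0 t.2 ht.2.2 n), dif_neg (not_lt.2 hn), add_zero]

/-- the types of configurations -/
abbrev Ty (k : ℕ) : Type := {c : Finset (Fin k) × Finset (Fin k) × Finset (Fin k) //
  k < c.1.card + c.2.1.card + c.2.2.card} × (Fin k → Bool) × (Fin k → Fin k) × (Fin k → Fin k)

theorem done (hFD : S_FD) (h1 : S_PS1) (h2 : S_PS2) (h3 : S_PS3) : S_GEN := by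
  intro ε hε
  let I : Type := (Σ k : ℕ, Ty k) × ℕ
  let F : I → Set (Om × Om) := fun p =>
    (Bad ε p.1.1 (1 / ((p.2 : ℝ) + 1)) p.1.2.1.1.1 p.1.2.1.1.2.1 p.1.2.1.1.2.2 p.1.2.2.1
      p.1.2.2.2.1 p.1.2.2.2.2)ᶜ
  have hFo : ∀ p, IsOpen (F p) := fun p => (Bad_closed h2 _ _ _ _ _ _ _ _ _).isOpen_compl
  have hFd : ∀ p, Dense (F p) := by
    intro p
    have := Bad_interior hFD h1 h3 hε p.1.1 (δ := 1 / ((p.2 : ℝ) + 1)) (by positivity)
      p.1.2.1.1.1 p.1.2.1.1.2.1 p.1.2.1.1.2.2 p.1.2.1.2 p.1.2.2.1 p.1.2.2.2.1 p.1.2.2.2.2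
    exact interior_eq_empty_iff_dense_compl.1 this
  have : Countable I := inferInstanceAs (Countable ((Σ k : ℕ, Ty k) × ℕ))
  have hD : Dense (⋂ p, F p) := dense_iInter_of_isOpen hFo hFd
  have : Nonempty (Om × Om) := ⟨(fun _ => ⟨0, by norm_num⟩, fun _ => ⟨0, by norm_num⟩)⟩
  obtain ⟨⟨a, b⟩, hab⟩ := hD.nonempty
  refine ⟨a, b, ?_⟩
  intro k X hX C S T σ τ hC h03 hS hT
  by_contra hcard
  push Not at hcard
  have hev : ∀ c : ℝ, 0 < c → ∀ᶠ n : ℕ in atTop, 1 / ((n : ℝ) + 1) ≤ c := by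
    intro c hc
    exact (tendsto_one_div_add_atTop_nhds_zero_nat.eventually (gt_mem_nhds hc)).mono
      fun n hn => le_of_lt hn
  have e1 : ∀ᶠ n : ℕ in atTop, ∀ i j : Fin k, i ≠ j → 1 / ((n : ℝ) + 1) ≤ |X i - X j| := by
    refine eventually_all.2 fun i => eventually_all.2 fun j => ?_
    by_cases hij : i = j
    · exact Eventually.of_forall fun n h => absurd hij h
    · exact (hev _ (abs_pos.2 (sub_ne_zero.2 (fun h => hij (hX h))))).mono fun n hn _ => hn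
  have e2 : ∀ᶠ n : ℕ in atTop, ∀ i : Fin k, 1 / ((n : ℝ) + 1) ≤ X i :=
    eventually_all.2 fun i => hev _ (h03 i).1
  have e3 : ∀ᶠ n : ℕ in atTop, ∀ i : Fin k, 1 / ((n : ℝ) + 1) ≤ 3 - X i :=
    eventually_all.2 fun i => hev _ (sub_pos.2 (h03 i).2)
  have e4 : ∀ᶠ n : ℕ in atTop, ∀ i : Fin k, i ∈ S → 1 / ((n : ℝ) + 1) ≤ 2 - X i := by
    refine eventually_all.2 fun i => ?_
    by_cases hi : i ∈ S
    · exact (hev _ (sub_pos.2 (hS i hi).1.2)).mono fun n hn _ => hn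
    · exact Eventually.of_forall fun n h => absurd h hi
  have e5 : ∀ᶠ n : ℕ in atTop, ∀ i : Fin k, i ∈ T → 1 / ((n : ℝ) + 1) ≤ X i - 1 := by
    refine eventually_all.2 fun i => ?_
    by_cases hi : i ∈ T
    · exact (hev _ (sub_pos.2 (hT i hi).1.1)).mono fun n hn _ => hn
    · exact Eventually.of_forall fun n h => absurd h hi
  obtain ⟨n, n1, n2, n3, n4, n5⟩ := (e1.and (e2.and (e3.and (e4.and e5)))).exists
  have := mem_iInter.1 hab (⟨k, ⟨⟨⟨C, S, T⟩, hcard⟩, fun i => decide (X i = 1), σ, τ⟩⟩, n)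
  apply this
  refine ⟨X, ⟨n1, fun i => ⟨n2 i, by have := n3 i; linarith⟩, fun i hi => by have := n4 i hi; linarith,
    fun i hi => by have := n5 i hi; linarith⟩, ?_, fun i hi => (hS i hi).2, fun i hi => (hT i hi).2⟩
  intro i hi
  rcases hC i hi with h | h
  · simp [vv, h]
  · have h12 : X i ≠ 1 := by rw [h]; norm_num
    simp only [vv, h12, decide_false, Bool.false_eq_true, if_false]
    exact h

end Pool.Agent.Y986.CG
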